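import Pool.Agent.R503.PS.Final

/-!
# Almost all possible Chern classes of bundles of rank two on `ℙ^n` are those of split bundles

Let `E` be a complex vector bundle of rank two on `ℙ^n` with the Chern classes `c₁`, `c₂`. The theorem
of Riemann-Roch gives the Riemann-Roch conditions for the polynomial `T² - c₁ T + c₂`: the sum of the
values at its roots of every integer-valued polynomial of degree at most `n` is an integer. The split
bundles `𝒪(a) ⊕ 𝒪(b)` have `c₁ = a + b`, `c₂ = a b`.

We show that in boxes `|c₁| ≤ H`, `|c₂| ≤ H²` of size up to any fixed power of `n` almost all pairs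
satisfying the Riemann-Roch conditions are those of split bundles: the others are at most a
proportion `(log n)^(-U)`, for every fixed `U`. Also for every `A` and `U` and all sufficiently large
`n` the number of the integers `D`, not perfect squares, `|D| ≤ X ≤ n ^ A`, which are discriminants
`c₁² - 4 c₂` of such pairs, is at most `√X / (log n)^U`, while the number of perfect squares in this
range is about `√X`.

Proof. `D` is a square modulo all odd primes `p < n`. Let `D = ± d f²` or `± 2 d f²`, with `d` odd and
squarefree. At most `2 A` of the primes `p ≡ 1 (mod 8)` between `(n - 1) / 2` and `n - 1` divide `D`,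
so `d` is a quadratic residue, and the Jacobi symbol `(p / d)` is one, for the other ones. By a large
sieve inequality for the products of `2 A + 1` of these primes the number of such `d` up to `n ^ A` is
at most a fixed power of `log n`, and by the theorem of Bombieri and Vinogradov (used for small
moduli only) none of them, except `1`, is smaller than `(log n)^B`. So the number of possible `D` is
at most the sum of `4 √(X / d)` over few large `d`.
-/

set_option autoImplicit false

open Finset Polynomial

namespace Pool.Agent.Results.MP_b01859_ag.AlmostAllChernClasses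

open Pool.Agent.R920.CH

/-- `c₁ = a + b`, `c₂ = a b`: the Chern classes of `𝒪(a) ⊕ 𝒪(b)`. -/
def IsSplit (c : ℤ × ℤ) : Prop := ∃ a b : ℤ, c.1 = a + b ∧ c.2 = a * b

open Classical in
/-- The pairs `(c₁, c₂)` with `|c₁| ≤ H`, `|c₂| ≤ H²` that satisfy the Riemann-Roch conditions for
bundles of rank two on `ℙ^n`. -/
noncomputable def possible (n H : ℕ) : Finset (ℤ × ℤ) :=
  (Icc (-(H : ℤ)) H ×ˢ Icc (-(H : ℤ) ^ 2) ((H : ℤ) ^ 2)).filter
    fun c => RiemannRoch n (X ^ 2 - C c.1 * X + C c.2)

open Classical in
/-- **Almost all possible Chern classes are those of split bundles.** -/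
theorem result (A U : ℕ) : ∃ n₀ : ℕ, ∀ n : ℕ, n₀ ≤ n →
    (∀ H : ℕ, 1 ≤ H → H ≤ n ^ A →
      (((possible n H).filter fun c => ¬ IsSplit c).card : ℝ) * Real.log n ^ U ≤
        (possible n H).card) ∧
    ∀ X : ℕ, X ≤ n ^ A → ∀ S : Finset ℤ,
      (∀ D ∈ S, ¬ IsSquare D ∧ |D| ≤ X ∧ ∃ c : ℤ × ℤ, D = c.1 ^ 2 - 4 * c.2 ∧
        RiemannRoch n (Polynomial.X ^ 2 - C c.1 * Polynomial.X + C c.2)) →
      (S.card : ℝ) * Real.log n ^ U ≤ √(X : ℝ) := by
  obtain ⟨n₁, h₁⟩ := Pool.Agent.R503.PS.main A U
  obtain ⟨n₂, h₂⟩ := Pool.Agent.R503.PS.main_disc A U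
  refine ⟨max n₁ n₂, fun n hn => ⟨fun H hH hHn => ?_, fun X hX S hS => ?_⟩⟩
  · exact h₁ n ((le_max_left _ _).trans hn) H hH hHn
  · refine h₂ n ((le_max_right _ _).trans hn) X hX S fun D hD => ?_
    obtain ⟨a, b, c, d, e⟩ := hS D hD
    exact ⟨a, b, c, d, e⟩

end Pool.Agent.Results.MP_b01859_ag.AlmostAllChernClasses
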